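import Pool.Agent.Lib.MP_1a39b9_al.Mg.G004
import Pool.Agent.Lib.MP_1a39b9_al.Mg.G006

/-!
# RG M3: equality of the relation numbers

`disc_congr`: transport with `FreeGroup.freeGroupCongr e` (`Subgroup.map_normalClosure`, `Finset.map` or `Finset.image` with an
injective map keeps the cardinality).  `Disc.proP`: clear (`T` presents: `normalClosure T = ψ.ker`).
`r_eq_of_disc`: hypotheses: a presentation `ψ`, `T` on `d` generators, with `ker ≤ Φ` (`FrK`) and `T.card ≤ finrank (IL p ψ.ker)`.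
`r1 ≤ T.card` (`Nat.sInf_le`).  Let `φ`, `S` be a pro-`p` presentation with `S.card = r2` (`Nat.sInf_mem`; the set is not empty by `Disc.proP`).
`T.card ≤ finrank (IL p ψ.ker) ≤ finrank (IL p φ.ker) ≤ S.card` (`finrank_IL_le` B3, `ProP.findim`, `ProP.finrank_le` B2).  So `r1 ≤ r2`.
`r2 ≤ r1`: a discrete presentation with `r1` relators is a pro-`p` presentation (`Nat.sInf_mem`, `Nat.sInf_le`).
`main_dat`: `D.psi` on `FF D.k D.N`; transport to `Fin d` by `e : Fin k ⊕ Fin N ≃ Fin (k + N)` (`finSumFinEquiv`), `Dat.exists_I` (M0), `Dat.disc` (M2).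
(`FrK` and the dimension of `IL` have to be transported as well; or state `r_eq_of_disc` for a presentation on any finite index
type `κ` with `Fintype.card κ = d` - as done below - and use `disc_congr` only for `r1 ≤ T.card`.)
-/

set_option autoImplicit false

namespace Pool.Agent.RG

open Subgroup

theorem disc_congr {ι κ G : Type} [DecidableEq κ] [Group G] (e : ι ≃ κ) {ψ : FreeGroup ι →* G}
    {T : Finset (FreeGroup ι)} (h : Disc ψ T) :
    ∃ (ψ' : FreeGroup κ →* G) (T' : Finset (FreeGroup κ)), Disc ψ' T' ∧ T'.card = T.card := by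
  let E : FreeGroup ι ≃* FreeGroup κ := FreeGroup.freeGroupCongr e
  refine ⟨ψ.comp E.symm.toMonoidHom, T.map E.toEquiv.toEmbedding, ⟨?_, ?_⟩, Finset.card_map _⟩
  · exact h.surj.comp E.symm.surjective
  · have h1 : ((T.map E.toEquiv.toEmbedding : Finset (FreeGroup κ)) : Set (FreeGroup κ)) =
        E.toMonoidHom '' (T : Set (FreeGroup ι)) := by
      rw [Finset.coe_map]
      rfl
    rw [h1, ← Subgroup.map_normalClosure _ _ (show Function.Surjective E.toMonoidHom from
      E.surjective), h.eq]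
    ext x
    constructor
    · rintro ⟨y, hy, rfl⟩
      change ψ (E.symm (E y)) = 1
      rw [E.symm_apply_apply]
      exact hy
    · intro hx
      exact ⟨E.symm x, hx, E.apply_symm_apply x⟩

theorem Disc.proP {p : ℕ} {ι G : Type} [Group G] {ψ : FreeGroup ι →* G}
    {T : Finset (FreeGroup ι)} (h : Disc ψ T) : ProP p ψ T := by
  exact ⟨h.surj, h.eq.le, fun K _ _ hK => h.eq ▸ hK⟩

theorem r_eq_of_disc {p : ℕ} [Fact p.Prime] {G : Type} [Group G] [Finite G] (hG : IsPGroup p G)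
    {d : ℕ} {κ : Type} [Fintype κ] [DecidableEq κ] (hκ : Fintype.card κ = d)
    {ψ : FreeGroup κ →* G} {T : Finset (FreeGroup κ)} (h : Disc ψ T) (hfr : FrK p ψ.ker)
    (hT : T.card ≤ Module.finrank (ZMod p) (IL p ψ.ker)) : r1 d G = r2 p d G := by
  obtain ⟨ψ', T', h', hc⟩ := disc_congr (Fintype.equivFinOfCardEq hκ) h
  have hne1 : {r | ∃ (ψ : FreeGroup (Fin d) →* G) (T : Finset (FreeGroup (Fin d))),
      Disc ψ T ∧ T.card = r}.Nonempty := ⟨T'.card, ψ', T', h', rfl⟩
  have hne2 : {r | ∃ (φ : FreeGroup (Fin d) →* G) (S : Finset (FreeGroup (Fin d))),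
      ProP p φ S ∧ S.card = r}.Nonempty := ⟨T'.card, ψ', T', h'.proP, rfl⟩
  refine le_antisymm ?_ ?_
  · obtain ⟨φ, S, hφ, hS⟩ := Nat.sInf_mem hne2
    have := hφ.findim hG
    have h1 : r1 d G ≤ T.card := Nat.sInf_le ⟨ψ', T', h', hc⟩
    have h2 := finrank_IL_le h.surj hfr hφ.surj
    have h3 := hφ.finrank_le hG
    have h4 : S.card = r2 p d G := hS
    exact h1.trans (hT.trans (h2.trans (h3.trans h4.le)))
  · obtain ⟨φ, S, hφ, hS⟩ := Nat.sInf_mem hne1
    exact Nat.sInf_le ⟨φ, S, hφ.proP, hS⟩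

theorem main_dat {p : ℕ} [Fact p.Prime] {G : Type} [Group G] [Finite G] (hG : IsPGroup p G)
    (D : Dat p G) : r1 (D.k + D.N) G = r2 p (D.k + D.N) G := by
  obtain ⟨I, hI, hsep⟩ := D.exists_I
  exact r_eq_of_disc hG (κ := Fin D.k ⊕ Fin D.N) (by simp) (Dat.disc hG D I hsep) D.fr hI

/-- Theorem A. -/
theorem result_A (p : ℕ) [Fact p.Prime] (G : Type) [Group G] [Finite G] (hG : IsPGroup p G)
    (c : ℕ) (hc : Nat.card (commutator G) = p ^ c) (hd : 13 * c ^ 2 ≤ Group.rank G) :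
    r1 (Group.rank G) G = r2 p (Group.rank G) G := by
  obtain ⟨k, N, m, x, y, h1, h2, h3, h4, h5, h6, h7⟩ := exists_family hG hc hd
  obtain ⟨D, hD⟩ := exists_dat hG hc x y h1 h2 h3 h4 h5 h6 h7
  have h := main_dat hG D
  rwa [hD] at h

end Pool.Agent.RG
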