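import Pool.Agent.Lib.MP_1a39b9_al.Mg.G001
import Pool.Agent.Lib.MP_1a39b9_al.Mg.G004

/-!
# RG FR: the class in terms of the Frattini subgroup

PROOF of `mem_frattini`.  `frattini G` is the intersection of the maximal subgroups `M` (`frattini`, `Order.radical`, `IsCoatom`).  For such `M` there is (`exists_char` in V1, `M ≠ ⊤`) `f ∈ HM p G`, `f ≠ 0`, `f = 0` on `M`: the
kernel of `f` is a proper subgroup containing `M`, so equal to `M`; `f (cm a b) = 0`, `f (a ^ p) = p * f a = 0`: `cm a b, a ^ p ∈ M`.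
PROOF of `frattini_le`.  Let `g ∈ frattini G`, `g ∉ Ph`.  `V = Additive (G ⧸ Ph)` is a vector space over `F_p` (`Ph` is normal, the quotient is commutative with `p`-th powers `1`), the class of `g` is not `0`; so there is a
linear functional `V → F_p` which is not `0` at it (`Module.exists_dual_forall_apply_eq_zero_iff`-type lemma, `exists_dual_map_eq_bot_..`, `Module.forall_dual_apply_eq_zero_iff`), hence a homomorphism `f : G → F_p` with
`f g ≠ 0`.  Its kernel `K` has prime index `p`, so it is maximal (or: `K ⊔ zpowers g = ⊤`, `frattini_nongenerating`: `K ⊔ frattini G = ⊤` implies `K = ⊤`), and `g ∉ K`: contradiction.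
PROOF of `frattini_iff`.  `→`: `mem_frattini`.  `cc`, `pc`: centrality; `cp`, `pp` (`a ^ (p ^ 2) = (a ^ p) ^ p`).  `←`: `frattini_le`, `ph_central`, `ph_pow` (G4).
-/

set_option autoImplicit false

namespace Pool.Agent.RG

open Subgroup

section
variable {p : ℕ} [Fact p.Prime] {G : Type} [Group G] [Finite G]

private theorem FR_one {f : G → ZMod p} (hf : f ∈ HM p G) : f 1 = 0 := by
  have h : f (1 * 1) = f 1 + f 1 := hf 1 1
  rw [mul_one] at h
  exact left_eq_add.1 h

private theorem FR_inv {f : G → ZMod p} (hf : f ∈ HM p G) (a : G) : f a⁻¹ = -f a := by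
  have h : f (a⁻¹ * a) = f a⁻¹ + f a := hf a⁻¹ a
  rw [inv_mul_cancel, FR_one hf] at h
  exact eq_neg_of_add_eq_zero_left h.symm

private theorem FR_cm {f : G → ZMod p} (hf : f ∈ HM p G) (a b : G) : f (cm a b) = 0 := by
  unfold cm
  rw [hf, hf, hf, FR_inv hf, FR_inv hf]
  ring

private theorem FR_pow {f : G → ZMod p} (hf : f ∈ HM p G) (a : G) (n : ℕ) : f (a ^ n) = n * f a := by
  induction n with
  | zero => rw [pow_zero, FR_one hf, Nat.cast_zero, zero_mul]
  | succ n ih =>
    rw [pow_succ, hf, ih]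
    push_cast
    ring

private theorem FR_coatom (hG : IsPGroup p G) {M : Subgroup G} (hM : IsCoatom M) :
    ∃ f ∈ HM p G, ∀ g, f g = 0 → g ∈ M := by
  obtain ⟨f, hf, hf0, hfM⟩ := exists_char hG M hM.1
  refine ⟨f, hf, ?_⟩
  let K : Subgroup G :=
    { carrier := {g | f g = 0}
      mul_mem' := by
        intro a b ha hb
        change f (a * b) = 0
        rw [hf, ha, hb, add_zero]
      one_mem' := FR_one hf
      inv_mem' := by
        intro a ha
        change f a⁻¹ = 0
        rw [FR_inv hf, ha, neg_zero] }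
  have hMK : M ≤ K := fun g hg => hfM g hg
  have hK : K ≠ ⊤ := by
    intro h
    apply hf0
    funext g
    have : g ∈ K := h ▸ Subgroup.mem_top g
    exact this
  rcases hMK.eq_or_lt with h | h
  · intro g hg
    rw [h]
    exact hg
  · exact absurd (hM.2 K h) hK

private theorem FR_mem {g : G} (h : ∀ M : Subgroup G, IsCoatom M → g ∈ M) : g ∈ frattini G := by
  unfold frattini Order.radical
  simp only [Subgroup.mem_iInf]
  intro M hM
  exact h M hM

theorem cm_mem_frattini (hG : IsPGroup p G) (a b : G) : cm a b ∈ frattini G := by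
  refine FR_mem fun M hM => ?_
  obtain ⟨f, hf, h⟩ := FR_coatom hG hM
  exact h _ (FR_cm hf a b)

theorem pow_mem_frattini (hG : IsPGroup p G) (a : G) : a ^ p ∈ frattini G := by
  refine FR_mem fun M hM => ?_
  obtain ⟨f, hf, h⟩ := FR_coatom hG hM
  apply h
  rw [FR_pow hf, CharP.cast_eq_zero, zero_mul]

theorem frattini_le (hG : IsPGroup p G) (h : PC2 p G) : frattini G ≤ Ph p G := by
  intro g hg
  by_contra hgP
  have hfin : {M : Subgroup G | Ph p G ≤ M ∧ g ∉ M}.Finite := Set.toFinite _
  obtain ⟨M, hM⟩ := hfin.exists_maximal ⟨Ph p G, le_rfl, hgP⟩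
  have hPM : Ph p G ≤ M := hM.prop.1
  have hgM : g ∉ M := hM.prop.2
  have hcm : ∀ a b : G, cm a b ∈ M := fun a b => hPM (subset_closure (Or.inr ⟨a, b, rfl⟩))
  have hpw : ∀ a : G, a ^ p ∈ M := fun a => hPM (subset_closure (Or.inl ⟨a, rfl⟩))
  have hN : M.Normal := by
    refine ⟨fun m hm k => ?_⟩
    have h1 : k * m * k⁻¹ = m * cm m k⁻¹ := by
      unfold cm
      group
    rw [h1]
    exact M.mul_mem hm (hcm m k⁻¹)
  have hbig : ∀ H : Subgroup G, M < H → g ∈ H := by
    intro H hH
    by_contra hgH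
    exact hH.not_ge (hM.le_of_ge ⟨hPM.trans hH.le, hgH⟩ hH.le)
  have htop : ∀ x : G, x ∈ M ⊔ zpowers g := by
    intro x
    by_cases hx : x ∈ M
    · exact (le_sup_left : M ≤ M ⊔ zpowers g) hx
    · have hlt : M < M ⊔ zpowers x := by
        refine lt_of_le_of_ne le_sup_left ?_
        intro he
        apply hx
        rw [he]
        exact (le_sup_right : zpowers x ≤ M ⊔ zpowers x) (mem_zpowers x)
      have hgx := hbig _ hlt
      rw [Subgroup.mem_sup_of_normal_left] at hgx
      obtain ⟨y, hy, z, hz, hyz⟩ := hgx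
      obtain ⟨n, rfl⟩ := mem_zpowers_iff.1 hz
      have hpn : ¬ ((p : ℤ) ∣ n) := by
        rintro ⟨k, rfl⟩
        apply hgM
        rw [← hyz, zpow_mul, zpow_natCast]
        exact M.mul_mem hy (M.zpow_mem (hpw x) k)
      have hcop : IsCoprime (n : ℤ) (p : ℤ) := by
        rw [Int.isCoprime_iff_gcd_eq_one, Int.gcd_comm]
        have hp : Nat.Prime p := Fact.out
        have h2 : ¬ p ∣ n.natAbs := by
          intro h3
          exact hpn (Int.natCast_dvd.2 h3)
        exact (Nat.Prime.coprime_iff_not_dvd hp).2 h2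
      obtain ⟨u, w, huw⟩ := hcop
      have hz' : x ^ n ∈ M ⊔ zpowers g := by
        have h3 : x ^ n = y⁻¹ * g := by
          rw [← hyz]
          group
        rw [h3]
        exact Subgroup.mul_mem _ ((le_sup_left : M ≤ M ⊔ zpowers g) (M.inv_mem hy))
          ((le_sup_right : zpowers g ≤ M ⊔ zpowers g) (mem_zpowers g))
      have hx' : x = (x ^ n) ^ u * (x ^ p) ^ w := by
        rw [← zpow_natCast x p, ← zpow_mul, ← zpow_mul, ← zpow_add]
        have h4 : n * u + (p : ℤ) * w = 1 := by
          rw [← huw]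
          ring
        rw [h4, zpow_one]
      rw [hx']
      exact Subgroup.mul_mem _ (Subgroup.zpow_mem _ hz' u)
        ((le_sup_left : M ≤ M ⊔ zpowers g) (M.zpow_mem (hpw x) w))
  have hco : IsCoatom M := by
    refine ⟨?_, fun H hH => ?_⟩
    · intro h1
      apply hgM
      rw [h1]
      exact Subgroup.mem_top g
    · rw [eq_top_iff]
      intro x _
      have h1 : M ⊔ zpowers g ≤ H := sup_le hH.le ((zpowers_le).2 (hbig H hH))
      exact h1 (htop x)
  exact hgM (frattini_le_coatom hco hg)

theorem frattini_iff (hG : IsPGroup p G) :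
    (frattini G ≤ center G ∧ ∀ x ∈ frattini G, x ^ p = 1) ↔ PC2 p G := by
  constructor
  · rintro ⟨h1, h2⟩
    have hz : ∀ z ∈ frattini G, ∀ c : G, cm z c = 1 := by
      intro z hz c
      have h3 := mem_center_iff.1 (h1 hz) c
      unfold cm
      rw [mul_assoc, ← h3]
      group
    refine ⟨fun a b c => hz _ (cm_mem_frattini hG a b) c, fun a b => hz _ (pow_mem_frattini hG a) b,
      fun a b => h2 _ (cm_mem_frattini hG a b), fun a => ?_⟩
    rw [pow_two, pow_mul]
    exact h2 _ (pow_mem_frattini hG a)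
  · intro h
    refine ⟨fun x hx => ?_, fun x hx => ph_pow h (frattini_le hG h hx)⟩
    rw [mem_center_iff]
    intro k
    exact (ph_central h (frattini_le hG h hx) k).symm

end

end Pool.Agent.RG
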