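import Pool.Agent.Lib.MP_1a39b9_al.Mg.G002

/-!
# RG N5: sum over the types, and the limit

PROOF of `cls_sum`, `bad_sum`.  For `I` with `PC2` there is a unique `e ≤ n` with `|Ph| = p ^ e` (`exists_type` in G4, `Nat.pow_right_injective`): the set is the disjoint union of the `Laws p (p ^ n) e`, `e ≤ n`
(`Finset.card_eq_sum_card_fiberwise`, or `Set.ncard_biUnion`-type lemma by induction).
PROOF of `bad_small`.  `n0` from `good_types` for `2 K` and `neg_types` for `2 K`.  For `n ≥ n0`: `2 K ncard BadC = ∑_{e ≤ n} 2 K ncard BadL e`.  For `5 e ≤ 3 (n - e)`: the term is at most `ncard Laws e`.  For the others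
(`d = n - e`, `3 d < 5 e`): the term is at most `2 K ncard Laws e`, and `(n + 1) * 2 K * ncard Laws e ≤ ncard Laws (n / 3) ≤ ncard Cls`; there are at most `n + 1` of them, so their sum is at most `ncard Cls`.
Together `2 K ncard BadC ≤ 2 ncard Cls`.
PROOF of `cls_pos`.  `lower` (N4) with `e = 0`, `d = n` (`0 + 1 ≤ n + ..` if `n ≥ 1`): `ncard Laws > 0`.
PROOF of `limit`.  `ncard {PC2 ∧ NoGap} = ncard Cls - ncard BadC`, so the quotient is `1 - ncard BadC / ncard Cls`, between `1 - 1 / K` and `1` for `n ≥ n0 (K)`.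
-/

set_option autoImplicit false

namespace Pool.Agent.RG

/-- The group laws on `p ^ n` points with `PC2`. -/
def Cls (p n : ℕ) : Set (Group (Fin (p ^ n))) := {I | @PC2 p (Fin (p ^ n)) I}

/-- Those with a gap. -/
def BadC (p n : ℕ) : Set (Group (Fin (p ^ n))) :=
  {I | @PC2 p (Fin (p ^ n)) I ∧ ¬ @NoGap p (Fin (p ^ n)) I}

private theorem N5_disj {α : Type} [Finite α] (f : ℕ → Set α)
    (hf : ∀ e e' : ℕ, ∀ I, I ∈ f e → I ∈ f e' → e = e') (m : ℕ) :
    ({I | ∃ e < m, I ∈ f e} : Set α).ncard = ∑ e ∈ Finset.range m, (f e).ncard := by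
  induction m with
  | zero => simp
  | succ m ih =>
    have h1 : ({I | ∃ e < m + 1, I ∈ f e} : Set α) = {I | ∃ e < m, I ∈ f e} ∪ f m := by
      ext I
      constructor
      · rintro ⟨e, he, hI⟩
        rcases Nat.lt_succ_iff_lt_or_eq.mp he with h | h
        · exact Or.inl ⟨e, h, hI⟩
        · exact Or.inr (h ▸ hI)
      · rintro (⟨e, he, hI⟩ | hI)
        · exact ⟨e, Nat.lt_succ_of_lt he, hI⟩
        · exact ⟨m, Nat.lt_succ_self m, hI⟩
    have h2 : Disjoint ({I | ∃ e < m, I ∈ f e} : Set α) (f m) := by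
      rw [Set.disjoint_left]
      rintro I ⟨e, he, hI⟩ hI'
      exact absurd (hf e m I hI hI') he.ne
    rw [h1, Set.ncard_union_eq h2 (Set.toFinite _) (Set.toFinite _), ih, Finset.sum_range_succ]

private theorem N5_uniq (p n : ℕ) [Fact p.Prime] (e e' : ℕ) (I : Group (Fin (p ^ n)))
    (h : I ∈ Laws p (p ^ n) e) (h' : I ∈ Laws p (p ^ n) e') : e = e' := by
  have hp : 2 ≤ p := (Fact.out : p.Prime).two_le
  have h1 := h.2
  have h2 := h'.2
  exact Nat.pow_right_injective hp (h1.symm.trans h2)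

private theorem N5_ex (p n : ℕ) [Fact p.Prime] (I : Group (Fin (p ^ n)))
    (h : @PC2 p (Fin (p ^ n)) I) : ∃ e < n + 1, I ∈ Laws p (p ^ n) e := by
  letI := I
  obtain ⟨e, he, hc⟩ := exists_type (p := p) (G := Fin (p ^ n)) (n := n) (by simp)
  exact ⟨e, Nat.lt_succ_of_le he, h, hc⟩

theorem cls_sum (p n : ℕ) [Fact p.Prime] :
    (Cls p n).ncard = ∑ e ∈ Finset.range (n + 1), (Laws p (p ^ n) e).ncard := by
  have h1 : Cls p n = {I | ∃ e < n + 1, I ∈ Laws p (p ^ n) e} := by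
    ext I
    constructor
    · intro h
      exact N5_ex p n I h
    · rintro ⟨e, _, h⟩
      exact h.1
  rw [h1]
  exact N5_disj _ (N5_uniq p n) (n + 1)

theorem bad_sum (p n : ℕ) [Fact p.Prime] :
    (BadC p n).ncard = ∑ e ∈ Finset.range (n + 1), (BadL p (p ^ n) e).ncard := by
  have h1 : BadC p n = {I | ∃ e < n + 1, I ∈ BadL p (p ^ n) e} := by
    ext I
    constructor
    · rintro ⟨h, hb⟩
      obtain ⟨e, he, hI⟩ := N5_ex p n I h
      exact ⟨e, he, hI, hb⟩
    · rintro ⟨e, _, h, hb⟩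
      exact ⟨h.1, hb⟩
  rw [h1]
  exact N5_disj _ (fun e e' I h h' => N5_uniq p n e e' I h.1 h'.1) (n + 1)

theorem bad_small (p : ℕ) [Fact p.Prime] (K : ℕ) :
    ∃ n0 : ℕ, ∀ n, n0 ≤ n → K * (BadC p n).ncard ≤ (Cls p n).ncard := by
  obtain ⟨a, ha⟩ := good_types p (2 * K)
  obtain ⟨b, hb⟩ := neg_types p (2 * K)
  refine ⟨max a b, fun n hn => ?_⟩
  have hna : a ≤ n := (le_max_left a b).trans hn
  have hnb : b ≤ n := (le_max_right a b).trans hn
  have hle : ∀ e : ℕ, (BadL p (p ^ n) e).ncard ≤ (Laws p (p ^ n) e).ncard := fun e =>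
    Set.ncard_le_ncard (fun I hI => hI.1) (Set.toFinite _)
  have hm : (Laws p (p ^ n) (n / 3)).ncard ≤ (Cls p n).ncard :=
    Set.ncard_le_ncard (fun I hI => hI.1) (Set.toFinite _)
  -- termwise
  have key : ∀ e ∈ Finset.range (n + 1), (n + 1) * (2 * K * (BadL p (p ^ n) e).ncard) ≤
      (n + 1) * (Laws p (p ^ n) e).ncard + (Cls p n).ncard := by
    intro e he
    have hen : e ≤ n := Nat.lt_succ_iff.mp (Finset.mem_range.mp he)
    by_cases h5 : 5 * e ≤ 3 * (n - e)
    · have h1 := ha (n - e) e (by omega) h5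
      have h2 : n - e + e = n := by omega
      rw [h2] at h1
      exact (Nat.mul_le_mul_left _ h1).trans (Nat.le_add_right _ _)
    · have h1 := hb n (n - e) e hnb (by omega) (by omega)
      calc (n + 1) * (2 * K * (BadL p (p ^ n) e).ncard)
          ≤ (n + 1) * (2 * K * (Laws p (p ^ n) e).ncard) :=
            Nat.mul_le_mul_left _ (Nat.mul_le_mul_left _ (hle e))
        _ = 2 * K * (n + 1) * (Laws p (p ^ n) e).ncard := by ring
        _ ≤ (Laws p (p ^ n) (n / 3)).ncard := h1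
        _ ≤ (Cls p n).ncard := hm
        _ ≤ _ := Nat.le_add_left _ _
  have hsum := Finset.sum_le_sum key
  rw [← Finset.mul_sum, ← Finset.mul_sum, Finset.sum_add_distrib, ← Finset.mul_sum,
    Finset.sum_const, Finset.card_range, smul_eq_mul, ← cls_sum, ← bad_sum] at hsum
  have h3 : (n + 1) * (2 * (K * (BadC p n).ncard)) ≤ (n + 1) * (2 * (Cls p n).ncard) := by
    calc (n + 1) * (2 * (K * (BadC p n).ncard)) = (n + 1) * (2 * K * (BadC p n).ncard) := by ring
      _ ≤ (n + 1) * (Cls p n).ncard + (n + 1) * (Cls p n).ncard := hsum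
      _ = (n + 1) * (2 * (Cls p n).ncard) := by ring
  have h4 := Nat.le_of_mul_le_mul_left h3 (Nat.succ_pos n)
  exact Nat.le_of_mul_le_mul_left h4 (by norm_num)

theorem cls_pos (p : ℕ) [Fact p.Prime] {n : ℕ} (hn : 1 ≤ n) : 0 < (Cls p n).ncard := by
  have h1 := lower (p := p) (d := n) (e := 0) (n := n) (by simp) (by omega)
  have h2 : 0 < (Laws p (p ^ n) 0).ncard := by
    by_contra h
    have h0 : (Laws p (p ^ n) 0).ncard = 0 := by omega
    rw [h0] at h1
    have h3 := Nat.factorial_pos (p ^ n)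
    simp at h1
    omega
  exact h2.trans_le (Set.ncard_le_ncard (fun I hI => hI.1) (Set.toFinite _))

theorem limit (p : ℕ) [Fact p.Prime] :
    Filter.Tendsto (fun n => (Set.ncard {I : Group (Fin (p ^ n)) |
      @PC2 p (Fin (p ^ n)) I ∧ @NoGap p (Fin (p ^ n)) I} : ℝ) / (Cls p n).ncard)
      Filter.atTop (nhds 1) := by
  have hsplit : ∀ n : ℕ, Set.ncard {I : Group (Fin (p ^ n)) |
      @PC2 p (Fin (p ^ n)) I ∧ @NoGap p (Fin (p ^ n)) I} + (BadC p n).ncard = (Cls p n).ncard := by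
    intro n
    have h1 : Cls p n = {I : Group (Fin (p ^ n)) |
        @PC2 p (Fin (p ^ n)) I ∧ @NoGap p (Fin (p ^ n)) I} ∪ BadC p n := by
      ext I
      constructor
      · intro h
        by_cases hg : @NoGap p (Fin (p ^ n)) I
        · exact Or.inl ⟨h, hg⟩
        · exact Or.inr ⟨h, hg⟩
      · rintro (h | h)
        · exact h.1
        · exact h.1
    have h2 : Disjoint {I : Group (Fin (p ^ n)) |
        @PC2 p (Fin (p ^ n)) I ∧ @NoGap p (Fin (p ^ n)) I} (BadC p n) := by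
      rw [Set.disjoint_left]
      rintro I h h'
      exact h'.2 h.2
    rw [h1, Set.ncard_union_eq h2 (Set.toFinite _) (Set.toFinite _)]
  rw [Metric.tendsto_atTop]
  intro ε hε
  obtain ⟨K, hK⟩ := exists_nat_gt (1 / ε)
  have hK0 : (0 : ℝ) < K := lt_trans (by positivity) hK
  obtain ⟨n0, hn0⟩ := bad_small p K
  refine ⟨max n0 1, fun n hn => ?_⟩
  have hn1 : 1 ≤ n := (le_max_right n0 1).trans hn
  have hb := hn0 n ((le_max_left n0 1).trans hn)
  have hc : (0 : ℝ) < (Cls p n).ncard := by exact_mod_cast cls_pos p hn1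
  have hs : (Set.ncard {I : Group (Fin (p ^ n)) |
      @PC2 p (Fin (p ^ n)) I ∧ @NoGap p (Fin (p ^ n)) I} : ℝ) + (BadC p n).ncard =
      (Cls p n).ncard := by exact_mod_cast hsplit n
  have hbR : (K : ℝ) * (BadC p n).ncard ≤ (Cls p n).ncard := by exact_mod_cast hb
  rw [Real.dist_eq]
  have h1 : (Set.ncard {I : Group (Fin (p ^ n)) |
      @PC2 p (Fin (p ^ n)) I ∧ @NoGap p (Fin (p ^ n)) I} : ℝ) / (Cls p n).ncard - 1 =
      -((BadC p n).ncard / (Cls p n).ncard : ℝ) := by
    rw [← hs] at hc ⊢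
    field_simp
    ring
  rw [h1, abs_neg, abs_of_nonneg (by positivity)]
  rw [div_lt_iff₀ hc]
  have h2 : 1 < ε * K := by
    rw [div_lt_iff₀ hε] at hK
    linarith [mul_comm (K : ℝ) ε]
  have h3 : (0 : ℝ) ≤ (BadC p n).ncard := by positivity
  by_contra hcon
  push Not at hcon
  have h4 : (K : ℝ) * (ε * (Cls p n).ncard) ≤ K * (BadC p n).ncard :=
    mul_le_mul_of_nonneg_left hcon hK0.le
  nlinarith

end Pool.Agent.RG
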